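import Pool.Agent.Lib_MP_7c0803_pp.Final3

/-!
# Kempe equivalence of 3-edge-colourings of cubic graphs with many disjoint 4-cycles

(1) A cubic graph (bipartite or not) whose vertex set can be partitioned into 4-cycles has exactly one Kempe class of proper
3-edge-colourings.  (2) For a cubic bipartite graph with `k` disjoint 4-cycles and at most `4 k + 12` vertices the parity condition
`EvenFlips` is necessary and sufficient.  (3) `12` cannot be replaced by `14`.

`Kc H k` (number of Kempe classes of proper `k`-colourings of `H`) and `HasC4Factor` are defined in `FourCycle.lean`, `flips` in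
`Graph.lean`, `DisjC4` in `QuadG.lean`, `EvenFlips` in `Final3.lean`.
-/

set_option autoImplicit false

namespace Pool.Agent.Results.MP_7c0803_co.FourCycles

open SimpleGraph Pool.Agent.PP

universe u

theorem result :
    (∀ (V : Type u) [Finite V] (G : SimpleGraph V), (∀ v, (G.neighborSet v).ncard = 3) → HasC4Factor G →
      Kc G.lineGraph 3 = 1) ∧
    (∀ (V : Type u) [Finite V] (G : SimpleGraph V), (∀ v, (G.neighborSet v).ncard = 3) → G.Colorable 2 →
      ∀ k, DisjC4 G k → Nat.card V ≤ 4 * k + 12 → (Kc G.lineGraph 3 = 1 ↔ EvenFlips G)) ∧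
    (∃ (V : Type) (_ : Fintype V) (G : SimpleGraph V), Fintype.card V = 14 ∧ G.Connected ∧
      (∀ v, (G.neighborSet v).ncard = 3) ∧ G.Colorable 2 ∧ EvenFlips G ∧ Kc G.lineGraph 3 ≠ 1) := by
  refine ⟨?_, ?_, ?_⟩
  · intro V _ G hcub h4
    exact fourCycle_result G hcub h4
  · intro V _ G hcub hbip k hk hV
    obtain ⟨κ⟩ := col_of_colorable hbip
    exact kc_quads κ hcub k hk hV
  · obtain ⟨V, hV, G, h1, h2, h3, h4, h5, h6⟩ := heawood_sharp
    exact ⟨V, hV, G, h1, h2, h4, h3, h5, h6⟩

end Pool.Agent.Results.MP_7c0803_co.FourCycles
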