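import Pool.Agent.Lib_MP_7c0803_tor.HeaEmb
import Pool.Agent.Lib_MP_7c0803_tor.KEmb
import Pool.Agent.Lib_MP_7c0803_tor.KNoH
import Pool.Agent.Lib_MP_7c0803_tor.KFinal

/-!
# Kempe equivalence of 3-edge-colourings of cubic bipartite graphs in surfaces of Euler characteristic at least zero

For two proper 3-edge-colourings `c, c'` let `flips c c'` be the set of vertices at which exactly one edge has the same colour in
both.  `EvenFlips G`: this number is even for all `c, c'`.  For a connected cubic bipartite graph `G` embedded in a surface of Euler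
characteristic at least zero (sphere, projective plane, torus, Klein bottle), without a subdivision of the Heawood graph, and, if the
embedding has twisted edges, without a subdivision of the graph `kleinGraph` with 18 vertices: `Kc(L(G), 3) = 1` if and only if
`EvenFlips G`.  Both graphs have such an embedding, `EvenFlips`, and more than one Kempe class; the second one does not contain the first.

`Kc` is defined in `FourCycle.lean`, `Emb` (rotation systems with faces) and `flips` in `Graph.lean`, `EvenFlips` in `Final3.lean`,
`ContainsSubdivision` in `TopDefs.lean` of `Lib_MP_7c0803_pp`, `heawoodGraph` in `Hea.lean`, `kleinGraph` in `KDefs.lean` of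
`Lib_MP_7c0803_tor`.
-/

set_option autoImplicit false

namespace Pool.Agent.Results.MP_7c0803_co.NonnegativeEuler

open SimpleGraph Pool.Agent.PP

universe u

/-- `H` is cubic and bipartite -/
def CubicBip {W : Type u} (H : SimpleGraph W) : Prop := (∀ w, (H.neighborSet w).ncard = 3) ∧ H.Colorable 2

/-- the Euler characteristic `|V| - |E| + |F|` is at least zero -/
def NonnegChi {W : Type u} {H : SimpleGraph W} (M : Emb H) : Prop :=
  Nat.card H.edgeSet ≤ Nat.card W + Nat.card M.Face

/-- no twisted edges (for connected `H`: the surface is orientable) -/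
def Untwisted {W : Type u} {H : SimpleGraph W} (M : Emb H) : Prop := ∀ d, M.tw d = false

/-- all 3-edge-colourings have the same parity, but they are not all Kempe equivalent -/
def Bad {W : Type u} (H : SimpleGraph W) : Prop := EvenFlips H ∧ Kc H.lineGraph 3 ≠ 1

theorem result :
    (∀ {V : Type u} [Finite V] (G : SimpleGraph V) (M : Emb G), G.Connected → CubicBip G → NonnegChi M →
      ¬ ContainsSubdivision heawoodGraph G → (Untwisted M ∨ ¬ ContainsSubdivision kleinGraph G) →
      (Kc G.lineGraph 3 = 1 ↔ EvenFlips G)) ∧
    (heawoodGraph.Connected ∧ CubicBip heawoodGraph ∧ Bad heawoodGraph ∧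
      ∃ M : Emb heawoodGraph, Untwisted M ∧ NonnegChi M) ∧
    (kleinGraph.Connected ∧ CubicBip kleinGraph ∧ Bad kleinGraph ∧ (∃ M : Emb kleinGraph, NonnegChi M) ∧
      ¬ ContainsSubdivision heawoodGraph kleinGraph) := by
  obtain ⟨h1, h2, h3, h4, h5⟩ := heawood_facts
  obtain ⟨k1, k2, k3, k4, k5⟩ := klein_facts
  refine ⟨?_, ⟨h1, ⟨h3, h2⟩, ⟨h4, h5⟩, heawood_toroidal⟩, k1, ⟨k3, k2⟩, ⟨k4, k5⟩, klein_embedded, klein_no_heawood⟩
  intro V _ G M hG hcb hχ hH hQ
  obtain ⟨hcub, hbip⟩ := hcb
  obtain ⟨κ⟩ := col_of_colorable hbip
  exact ⟨fun h c c' => kc_necessary M κ hcub h c c', fun h => kc_nonneg M κ hcub hG hχ hH hQ h⟩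

end Pool.Agent.Results.MP_7c0803_co.NonnegativeEuler
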