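import Pool.Agent.Lib_MP_7c0803_hon.T

/-!
# Kempe equivalence of 3-edge-colourings of toroidal cubic bipartite graphs of girth at least six

`Hon L` is the hexagonal grid on the torus `(ℤ × ℤ) / L` (`Lib_MP_7c0803_hon/R.lean`), `Lt u v` the sublattice of `ℤ × ℤ` generated by `u` and `v`
(`Lib_MP_7c0803_tor/Defs.lean`).  For a connected cubic bipartite graph `G` without 4-cycles with an embedding in the torus:
`Kc(L(G), 3) = 1` if and only if `G` is a tube of circumference three with an even number `2 k ≥ 4` of layers or the graph `Hon (Lt (2, 2) (0, 8))`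
with 32 vertices; all 3-edge-colourings of `G` have the same parity but are not all Kempe equivalent if and only if `G` is the Heawood graph
`Hon (Lt (2, 1) (-7, 0))` or the graph `Hon (Lt (2, 1) (-10, 0))` with 20 vertices.

`Kc` is defined in `FourCycle.lean`, `Emb` (rotation systems with faces) and `flips` in `Graph.lean`, `EvenFlips` in `Final3.lean` of
`Lib_MP_7c0803_pp`.
-/

set_option autoImplicit false

namespace Pool.Agent.Results.MP_7c0803_co.ToroidalGirthSix

open SimpleGraph Pool.Agent.PP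

universe u

/-- `H` is cubic and bipartite -/
def CubicBip {W : Type u} (H : SimpleGraph W) : Prop := (∀ w, (H.neighborSet w).ncard = 3) ∧ H.Colorable 2

/-- `H` has no 4-cycle (a bipartite graph then has girth at least six) -/
def NoFourCycle {W : Type u} (H : SimpleGraph W) : Prop :=
  ∀ a b c d, H.Adj a b → H.Adj b c → H.Adj c d → H.Adj d a → a = c ∨ b = d

/-- `H` has an embedding without twisted edges with `|V| - |E| + |F| ≥ 0` (for connected `H`: in the torus or the sphere) -/
def Toroidal {W : Type u} (H : SimpleGraph W) : Prop :=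
  ∃ M : Emb H, (∀ d, M.tw d = false) ∧ Nat.card H.edgeSet ≤ Nat.card W + Nat.card M.Face

theorem result {V : Type u} [Finite V] (G : SimpleGraph V) (hG : G.Connected) (hcb : CubicBip G) (h4 : NoFourCycle G)
    (hT : Toroidal G) :
    (Kc G.lineGraph 3 = 1 ↔ (∃ (s : ℤ) (k : ℕ), 2 ≤ k ∧ Nonempty (G ≃g Hon (Lt (3, 0) (s, 2 * k)))) ∨
      Nonempty (G ≃g Hon (Lt (2, 2) (0, 8)))) ∧
    ((EvenFlips G ∧ Kc G.lineGraph 3 ≠ 1) ↔
      Nonempty (G ≃g Hon (Lt (2, 1) (-7, 0))) ∨ Nonempty (G ≃g Hon (Lt (2, 1) (-10, 0)))) := by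
  obtain ⟨hcub, hbip⟩ := hcb
  obtain ⟨κ⟩ := col_of_colorable hbip
  obtain ⟨M, htw, hχ⟩ := hT
  exact torus_girth6 M κ hcub hG htw hχ h4

end Pool.Agent.Results.MP_7c0803_co.ToroidalGirthSix
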